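import Pool.Agent.Q253.HV.Stm
import Pool.Agent.Q239.CentralLogDeriv

/-! Project HV, job SY: the zeros of `L(s, χ)` in the open strip are symmetric. -/

set_option autoImplicit false

namespace Pool.Agent.Q162.HV

open Complex DirichletCharacter
open Pool.Agent.Q253.HV

lemma euler_ne {N : ℕ} (χ : DirichletCharacter ℂ N) {p : ℕ} (hp : p.Prime) {s : ℂ} (hs : 0 < s.re) :
    1 - χ p * (p : ℂ) ^ (-s) ≠ 0 := by
  intro h
  have h1 : ‖χ p * (p : ℂ) ^ (-s)‖ = 1 := by
    rw [← sub_eq_zero.1 h, norm_one]
  have h2 : ‖χ p * (p : ℂ) ^ (-s)‖ < 1 := by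
    rw [norm_mul, Complex.norm_natCast_cpow_of_pos hp.pos]
    have h3 : (p : ℝ) ^ (-s).re < 1 := by
      rw [Complex.neg_re]
      exact Real.rpow_lt_one_of_one_lt_of_neg (by exact_mod_cast hp.one_lt) (by linarith)
    have h4 := χ.norm_le_one p
    have h5 : 0 ≤ (p : ℝ) ^ (-s).re := by positivity
    nlinarith [norm_nonneg (χ p)]
  linarith

lemma level_iff {q : ℕ} [NeZero q] (χ : DirichletCharacter ℂ q) [NeZero χ.conductor] {s : ℂ} (hs : 0 < s.re) (hs1 : s ≠ 1) :
    LFunction χ s = 0 ↔ LFunction χ.primitiveCharacter s = 0 := by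
  have h1 := LFunction_changeLevel (χ.conductor_dvd_level) χ.primitiveCharacter (s := s) (Or.inr hs1)
  rw [changeLevel_primitiveCharacter] at h1
  rw [h1, mul_eq_zero]
  constructor
  · rintro (h | h)
    · exact h
    · exfalso
      rw [Finset.prod_eq_zero_iff] at h
      obtain ⟨p, hp, h⟩ := h
      exact euler_ne _ (Nat.prime_of_mem_primeFactors hp) hs h
  · exact Or.inl

lemma completed_iff {N : ℕ} [NeZero N] (χ : DirichletCharacter ℂ N) {s : ℂ} (hs : 0 < s.re) :
    LFunction χ s = 0 ↔ completedLFunction χ s = 0 := by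
  have h0 : s ≠ 0 := by
    rintro rfl
    simp at hs
  rw [LFunction_eq_completed_div_gammaFactor χ s (Or.inl h0), div_eq_zero_iff]
  have := Q239.Central.gammaFactor_ne_zero χ hs
  tauto

/-- HV-SY -/
theorem t_SY : S_SY := by
  intro q _ χ h s hs0 hs1 hL
  have hc : χ.conductor ≠ 0 := by
    intro h0
    have := χ.conductor_dvd_level
    rw [h0, zero_dvd_iff] at this
    exact NeZero.ne q this
  have : NeZero χ.conductor := ⟨hc⟩
  by_contra hne
  rcases lt_or_gt_of_ne hne with hlt | hgt
  · have hs1' : s ≠ 1 := by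
      rintro rfl
      simp at hs1
    have h1 := (level_iff χ hs0 hs1').1 hL
    -- conjugation
    have h2 : LFunction χ.primitiveCharacter⁻¹ ((starRingEnd ℂ) s) = 0 := by
      rw [Q239.Central.LFunction_conj _ _ hs1', h1, map_zero]
    have h3 : completedLFunction χ.primitiveCharacter⁻¹ ((starRingEnd ℂ) s) = 0 :=
      (completed_iff _ (by simpa using hs0)).1 h2
    have h4 := (χ.primitiveCharacter_isPrimitive).completedLFunction_one_sub ((starRingEnd ℂ) s)
    rw [h3, mul_zero] at h4
    have h5 : 0 < (1 - (starRingEnd ℂ) s).re := by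
      simp
      linarith
    have h6 := (completed_iff χ.primitiveCharacter h5).2 h4
    have h7 : (1 - (starRingEnd ℂ) s) ≠ 1 := by
      intro h8
      have := congrArg Complex.re h8
      simp at this
      linarith
    have h8 := (level_iff χ h5 h7).2 h6
    refine h (1 - (starRingEnd ℂ) s) ?_ ?_ h8
    · simp
      linarith
    · simp
      linarith
  · exact h s hgt hs1 hL

end Pool.Agent.Q162.HV
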