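import Pool.Agent.Q253.HV.Stm

/-! Project HV, job GR: the generalized Riemann hypothesis for a character from the mean square of
`ψ(e^t, χ)` (adapted from the zeta case in Q213.GM.Lap). -/

set_option autoImplicit false

namespace Pool.Agent.Q162.HV

open MeasureTheory Filter Topology Set Complex DirichletCharacter
open Pool.Agent.Q253.HV

theorem abs_int {f : ℝ → ℂ} (h : Adm f) {σ : ℝ} (hσ : 1 / 2 < σ) :
    IntegrableOn (fun w => ‖f w‖ * Real.exp (-(σ * w))) (Ioi 0) := by
  have h1 := h.2 ((σ + 1 / 2) / 2) (by linarith)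
  have h2 : IntegrableOn (fun w : ℝ => Real.exp ((-(σ - 1 / 2)) * w)) (Ioi 0) :=
    integrableOn_exp_mul_Ioi (by linarith) 0
  refine Integrable.mono' (h1.add h2) ?_ (Eventually.of_forall fun w => ?_)
  · exact h.1.norm.mul (by fun_prop : Measurable fun w : ℝ => Real.exp (-(σ * w))).aestronglyMeasurable
  · rw [Real.norm_of_nonneg (by positivity)]
    have e1 : ‖f w‖ ^ 2 * Real.exp (-(2 * ((σ + 1 / 2) / 2) * w)) =
        (‖f w‖ * Real.exp (-((σ + 1 / 2) * w) / 2)) ^ 2 := by
      rw [mul_pow, ← Real.exp_nat_mul]; congr 2; push_cast; ring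
    have e2 : Real.exp ((-(σ - 1 / 2)) * w) = (Real.exp ((-(σ - 1 / 2)) * w / 2)) ^ 2 := by
      rw [← Real.exp_nat_mul]; congr 1; push_cast; ring
    have e3 : ‖f w‖ * Real.exp (-(σ * w)) =
        (‖f w‖ * Real.exp (-((σ + 1 / 2) * w) / 2)) * (Real.exp ((-(σ - 1 / 2)) * w / 2)) := by
      rw [mul_assoc, ← Real.exp_add]; congr 2; ring
    simp only [Pi.add_apply]
    rw [e1, e2, e3]
    nlinarith [sq_nonneg (‖f w‖ * Real.exp (-((σ + 1 / 2) * w) / 2) - Real.exp ((-(σ - 1 / 2)) * w / 2)),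
      sq_nonneg (‖f w‖ * Real.exp (-((σ + 1 / 2) * w) / 2)), sq_nonneg (Real.exp ((-(σ - 1 / 2)) * w / 2))]

theorem nt (f : ℝ → ℂ) (s : ℂ) (w : ℝ) : ‖f w * cexp (-s * w)‖ = ‖f w‖ * Real.exp (-(s.re * w)) := by
  rw [norm_mul, Complex.norm_exp]
  simp

theorem tm {f : ℝ → ℂ} (h : Adm f) (s : ℂ) :
    AEStronglyMeasurable (fun w : ℝ => f w * cexp (-s * w)) (volume.restrict (Ioi 0)) :=
  h.1.mul (by fun_prop : Measurable fun w : ℝ => cexp (-s * w)).aestronglyMeasurable

theorem ti {f : ℝ → ℂ} (h : Adm f) {s : ℂ} (hs : 1 / 2 < s.re) :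
    IntegrableOn (fun w : ℝ => f w * cexp (-s * w)) (Ioi 0) := by
  refine Integrable.mono' (abs_int h hs) (tm h s) (Eventually.of_forall fun w => ?_)
  rw [nt]

theorem lap_diff {f : ℝ → ℂ} (h : Adm f) {z : ℂ} (hz : 1 / 2 < z.re) : DifferentiableAt ℂ (lap f) z := by
  set r := (z.re - 1 / 2) / 2 with hr
  have hr0 : 0 < r := by rw [hr]; linarith
  have hbound : IntegrableOn (fun w : ℝ => (2 / r) * (‖f w‖ * Real.exp (-((z.re - 3 * r / 2) * w)))) (Ioi 0) :=
    (abs_int h (by rw [hr]; linarith)).const_mul _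
  have key := hasDerivAt_integral_of_dominated_loc_of_deriv_le (𝕜 := ℂ) (μ := volume.restrict (Ioi (0:ℝ)))
    (F := fun z v => f v * cexp (-z * v))
    (F' := fun z v => f v * (-(v : ℂ) * cexp (-z * v)))
    (x₀ := z) (s := Metric.ball z r)
    (bound := fun w => (2 / r) * (‖f w‖ * Real.exp (-((z.re - 3 * r / 2) * w))))
    (Metric.ball_mem_nhds z hr0)
    (Eventually.of_forall fun w => tm h w)
    (ti h hz)
    (h.1.mul (by fun_prop : Measurable fun v : ℝ => (-(v : ℂ) * cexp (-z * v))).aestronglyMeasurable)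
    ((ae_restrict_iff' measurableSet_Ioi).2 (Eventually.of_forall fun v hv w hw => by
      have hv0 : 0 < v := hv
      have hw1 : z.re - r < w.re := by
        rw [Metric.mem_ball, dist_eq_norm] at hw
        have h2 := (Complex.abs_re_le_norm (w - z)).trans_lt hw
        rw [Complex.sub_re] at h2
        linarith [neg_abs_le (w.re - z.re)]
      rw [norm_mul, norm_mul, norm_neg, Complex.norm_real, Real.norm_eq_abs, abs_of_pos hv0, Complex.norm_exp]
      have e1 : (-w * (v:ℂ)).re = -(w.re * v) := by simp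
      rw [e1]
      have h3 : v ≤ 2 / r * Real.exp (r / 2 * v) := by
        have h4 := Real.add_one_le_exp (r / 2 * v)
        have h5 : v = 2 / r * (r / 2 * v) := by field_simp
        calc v = 2 / r * (r / 2 * v) := h5
          _ ≤ _ := by gcongr; linarith
      have h6 : Real.exp (-(w.re * v)) ≤ Real.exp (-((z.re - r) * v)) := by
        refine Real.exp_le_exp.2 ?_
        nlinarith
      calc ‖f v‖ * (v * Real.exp (-(w.re * v))) ≤
            ‖f v‖ * ((2 / r * Real.exp (r / 2 * v)) * Real.exp (-((z.re - r) * v))) := by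
            gcongr
        _ = (2 / r) * (‖f v‖ * (Real.exp (r / 2 * v) * Real.exp (-((z.re - r) * v)))) := by ring
        _ = _ := by
          rw [← Real.exp_add]
          congr 3
          ring))
    hbound
    (Eventually.of_forall fun v w _ => by
      have h1 : HasDerivAt (fun w : ℂ => -w * (v:ℂ)) (-1 * (v:ℂ)) w :=
        ((hasDerivAt_id w).neg).mul_const (v:ℂ)
      have h2 := h1.cexp.const_mul (f v)
      have e : f v * (-(v : ℂ) * cexp (-w * v)) = f v * (cexp (-w * v) * (-1 * (v : ℂ))) := by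
        ring
      rw [e]
      exact h2)
  exact key.2.differentiableAt

/-- change of variables to the logarithmic scale -/
theorem exp_change (g : ℝ → ℂ) : ∫ t in Ioi (1:ℝ), g t = ∫ v in Ioi (0:ℝ), (Real.exp v : ℂ) * g (Real.exp v) := by
  have himg : Real.exp '' Ioi 0 = Ioi 1 := by
    ext y
    constructor
    · rintro ⟨v, hv, rfl⟩
      exact Real.one_lt_exp_iff.2 hv
    · intro hy
      have hy1 : (1:ℝ) < y := hy
      exact ⟨Real.log y, Real.log_pos hy1, Real.exp_log (by linarith)⟩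
  rw [← himg, integral_image_eq_integral_abs_deriv_smul measurableSet_Ioi
    (fun x _ => (Real.hasDerivAt_exp x).hasDerivWithinAt) Real.exp_injective.injOn]
  refine setIntegral_congr_fun measurableSet_Ioi fun v _ => ?_
  simp only [abs_of_pos (Real.exp_pos v), Complex.real_smul]

variable {q : ℕ} [NeZero q]

theorem right (χ : DirichletCharacter ℂ q) {s : ℂ} (hs : 1 < s.re) :
    deriv (LFunction χ) s = ld (fun t => psiC χ (Real.exp t)) s * LFunction χ s := by
  have hO : (fun n : ℕ => ∑ k ∈ Finset.Icc 1 n, ‖((ArithmeticFunction.vonMangoldt k : ℝ) : ℂ) * χ (k : ZMod q)‖) =O[atTop]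
      fun n : ℕ => (n : ℝ) ^ (1 : ℝ) := by
    obtain ⟨C, hC⟩ : ∃ C : ℝ, ∀ x : ℝ, 0 ≤ x → Chebyshev.psi x ≤ C * x :=
      ⟨Real.log 4 + 4, fun x hx => Chebyshev.psi_le_const_mul_self hx⟩
    refine Asymptotics.IsBigO.of_bound C (Eventually.of_forall fun n => ?_)
    have h1 := hC n (Nat.cast_nonneg n)
    rw [Real.rpow_one, Real.norm_of_nonneg (Finset.sum_nonneg fun _ _ => norm_nonneg _),
      Real.norm_of_nonneg (Nat.cast_nonneg n)]
    refine le_trans ?_ h1
    unfold Chebyshev.psi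
    rw [Nat.floor_natCast]
    refine Finset.sum_le_sum fun k _ => ?_
    rw [norm_mul, Complex.norm_real, Real.norm_of_nonneg ArithmeticFunction.vonMangoldt_nonneg]
    exact mul_le_of_le_one_right ArithmeticFunction.vonMangoldt_nonneg (χ.norm_le_one _)
  have key := LSeries_eq_mul_integral' (fun n : ℕ => ((ArithmeticFunction.vonMangoldt n : ℝ) : ℂ) * χ (n : ZMod q)) (r := 1)
    zero_le_one (s := s) hs hO
  have h2 := LSeries_twist_vonMangoldt_eq χ hs
  have h3 : LSeries ((fun n : ℕ => χ (n : ZMod q)) * fun n : ℕ => ((ArithmeticFunction.vonMangoldt n : ℝ) : ℂ)) s =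
      LSeries (fun n : ℕ => ((ArithmeticFunction.vonMangoldt n : ℝ) : ℂ) * χ (n : ZMod q)) s := by
    congr 1
    funext n
    rw [Pi.mul_apply, mul_comm]
  rw [h3, key, exp_change] at h2
  have hI : ∫ v in Ioi (0:ℝ), (Real.exp v : ℂ) * ((∑ k ∈ Finset.Icc 1 ⌊Real.exp v⌋₊,
      ((ArithmeticFunction.vonMangoldt k : ℝ) : ℂ) * χ (k : ZMod q)) * ((Real.exp v : ℝ) : ℂ) ^ (-(s + 1))) =
      lap (fun t => psiC χ (Real.exp t)) s := by
    unfold lap
    refine setIntegral_congr_fun measurableSet_Ioi fun v _ => ?_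
    have h1 : ((Real.exp v : ℝ) : ℂ) ^ (-(s + 1)) = cexp (-(s + 1) * v) := by
      rw [Complex.cpow_def_of_ne_zero (by exact_mod_cast (Real.exp_pos v).ne'), ← Complex.ofReal_log
        (Real.exp_pos v).le, Real.log_exp]
      congr 1
      ring
    simp only
    rw [h1]
    have e1 : cexp (-(s + 1) * v) = cexp (-v) * cexp (-s * v) := by
      rw [← Complex.exp_add]; congr 1; ring
    have e2 : cexp (v : ℂ) * cexp (-(v : ℂ)) = 1 := by rw [← Complex.exp_add]; simp
    rw [e1, Complex.ofReal_exp]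
    unfold psiC
    linear_combination (∑ n ∈ Finset.Icc 1 ⌊Real.exp v⌋₊, ((ArithmeticFunction.vonMangoldt n : ℝ) : ℂ) *
      χ (n : ZMod q)) * cexp (-s * v) * e2
  rw [hI] at h2
  have h4 : LFunction χ s = LSeries (fun n : ℕ => χ (n : ZMod q)) s := LFunction_eq_LSeries χ hs
  have h5 : deriv (LFunction χ) s = deriv (LSeries (fun n : ℕ => χ (n : ZMod q))) s :=
    deriv_LFunction_eq_deriv_LSeries χ hs
  have h6 : LSeries (fun n : ℕ => χ (n : ZMod q)) s ≠ 0 := LSeries_ne_zero_of_one_lt_re χ hs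
  rw [eq_div_iff h6] at h2
  rw [h5, h4]
  unfold ld
  linear_combination h2

theorem all (χ : DirichletCharacter ℂ q) (hχ : χ ≠ 1) (h : Adm (fun t => psiC χ (Real.exp t))) {s : ℂ}
    (hs : 1 / 2 < s.re) : deriv (LFunction χ) s = ld (fun t => psiC χ (Real.exp t)) s * LFunction χ s := by
  have hopen : IsOpen {z : ℂ | 1 / 2 < z.re} := isOpen_lt continuous_const Complex.continuous_re
  have hconn : IsPreconnected {z : ℂ | 1 / 2 < z.re} := (convex_halfSpace_re_gt (1 / 2)).isPreconnected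
  have hL : Differentiable ℂ (LFunction χ) := differentiable_LFunction hχ
  have hA1 : AnalyticOnNhd ℂ (deriv (LFunction χ)) {z : ℂ | 1 / 2 < z.re} :=
    DifferentiableOn.analyticOnNhd hL.deriv.differentiableOn hopen
  have hA2 : AnalyticOnNhd ℂ (fun s => ld (fun t => psiC χ (Real.exp t)) s * LFunction χ s) {z : ℂ | 1 / 2 < z.re} := by
    refine DifferentiableOn.analyticOnNhd (fun z hz => DifferentiableAt.differentiableWithinAt ?_) hopen
    exact ((differentiableAt_id.neg).mul (lap_diff h hz)).mul hL.differentiableAt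
  have h2 : (2 : ℂ) ∈ {z : ℂ | 1 / 2 < z.re} := by simp; norm_num
  refine hA1.eqOn_of_preconnected_of_eventuallyEq hA2 hconn h2 ?_ hs
  have h3 : {z : ℂ | 1 < z.re} ∈ 𝓝 (2 : ℂ) :=
    (isOpen_lt continuous_const Complex.continuous_re).mem_nhds (by simp)
  filter_upwards [h3] with z hz
  exact right χ hz

theorem ne_zero (χ : DirichletCharacter ℂ q) (hχ : χ ≠ 1) (h : Adm (fun t => psiC χ (Real.exp t))) {s : ℂ}
    (hs : 1 / 2 < s.re) : LFunction χ s ≠ 0 := by
  intro h0
  have hopen : IsOpen {z : ℂ | 1 / 2 < z.re} := isOpen_lt continuous_const Complex.continuous_re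
  have hL : Differentiable ℂ (LFunction χ) := differentiable_LFunction hχ
  have hA : AnalyticAt ℂ (LFunction χ) s := hL.analyticAt s
  have hg : AnalyticAt ℂ (ld fun t => psiC χ (Real.exp t)) s := by
    refine DifferentiableOn.analyticAt (s := {z : ℂ | 1 / 2 < z.re}) (fun z hz => ?_)
      (hopen.mem_nhds hs)
    exact ((differentiableAt_id.neg).mul (lap_diff h hz)).differentiableWithinAt
  have h1 := hA.analyticOrderAt_deriv_add_one
  have h2 : (fun z => LFunction χ z - LFunction χ s) = LFunction χ := by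
    funext z; rw [h0, sub_zero]
  rw [h2] at h1
  have h3 : deriv (LFunction χ) =ᶠ[𝓝 s] (ld fun t => psiC χ (Real.exp t)) * LFunction χ := by
    filter_upwards [hopen.mem_nhds hs] with z hz
    exact all χ hχ h hz
  rw [analyticOrderAt_congr h3, analyticOrderAt_mul hg hA] at h1
  have h4 : analyticOrderAt (LFunction χ) s = ⊤ := by
    by_contra hne
    obtain ⟨n, hn⟩ := ENat.ne_top_iff_exists.1 hne
    rw [← hn] at h1
    have h5 : (n : ℕ∞) + 1 ≤ n := by
      calc (n : ℕ∞) + 1 ≤ (analyticOrderAt (ld fun t => psiC χ (Real.exp t)) s + n) + 1 := by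
            gcongr
            exact le_add_self
        _ = n := h1
    have h6 : (n + 1 : ℕ) ≤ n := by exact_mod_cast h5
    omega
  rw [analyticOrderAt_eq_top] at h4
  have h5 : AnalyticOnNhd ℂ (LFunction χ) univ := fun z _ => hL.analyticAt z
  have h6 : EqOn (LFunction χ) 0 univ :=
    h5.eqOn_of_preconnected_of_eventuallyEq analyticOnNhd_const isPreconnected_univ (mem_univ s) h4
  have h7 := h6 (mem_univ (2 : ℂ))
  exact LFunction_ne_zero_of_one_le_re χ (Or.inl hχ) (by simp : (1 : ℝ) ≤ (2 : ℂ).re) h7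

/-- HV-GR -/
theorem t_GR : S_GR := by
  intro q _ χ hχ h s hs
  have h1 := ne_zero χ hχ h hs
  refine ⟨h1, ?_⟩
  rw [logDeriv_apply, all χ hχ h hs, mul_div_cancel_right₀ _ h1]

end Pool.Agent.Q162.HV
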